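import Mathlib

/-!
# Project ST (helper23): Stirling permutations of order `n` with exactly `n - 1` lucky cars:
definitions (MP_d4a4cd_co)
-/

set_option autoImplicit false

namespace Pool.Agent.L7h23.ST

/-- `w` is a Stirling permutation of order `n`: each of the letters `1, ..., n` occurs exactly
twice, and the letters between the two occurrences of `i` are larger than `i` -/
def IsStirling (n : ℕ) (w : List ℕ) : Prop :=
  w.length = 2 * n ∧ (∀ i, 1 ≤ i → i ≤ n → w.count i = 2) ∧
    ∀ (a b c : List ℕ) (i : ℕ), w = a ++ i :: (b ++ i :: c) → ∀ x ∈ b, i < x

/-- the spot in which a car with preference `p` parks: the first free spot from `p` on, when the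
spots in `occ` are taken -/
noncomputable def spot (occ : Finset ℕ) (p : ℕ) : ℕ := sInf {s | p ≤ s ∧ s ∉ occ}

/-- the number of lucky cars (which park in the spot they prefer) among cars with the preferences
`w`, which arrive in this order, when the spots in `occ` are taken at the beginning -/
noncomputable def luckyFrom : Finset ℕ → List ℕ → ℕ
  | _, [] => 0
  | occ, p :: w => (if spot occ p = p then 1 else 0) + luckyFrom (insert (spot occ p) occ) w

/-- the number of lucky cars for the preference list `w` -/
noncomputable def lucky (w : List ℕ) : ℕ := luckyFrom ∅ w

/-- the number `a(n,k)` of Stirling permutations of order `n` with exactly `k` lucky cars -/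
noncomputable def aN (n k : ℕ) : ℕ := {w : List ℕ | IsStirling n w ∧ lucky w = k}.ncard

end Pool.Agent.L7h23.ST
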