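import Pool.Agent.L7h23.ST.Stm

/-!
# Project ST, part HT (helper23): the numbers of the gaps after an insertion
-/

set_option autoImplicit false

namespace Pool.Agent.L7h23.ST

open Finset

/-- the letters of a Stirling permutation -/
theorem letters {m : ℕ} {w : List ℕ} (hw : IsStirling m w) {x : ℕ} (hx : x ∈ w) :
    1 ≤ x ∧ x ≤ m := by
  by_contra hc
  have h1 : x ∉ Icc 1 m := fun h => hc (by rwa [mem_Icc] at h)
  have h2 : ∑ a ∈ insert x (Icc 1 m), w.count a ≤ ∑ a ∈ w.toFinset, w.count a := by
    apply sum_le_sum_of_subset
    intro a ha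
    rw [mem_insert] at ha
    rw [List.mem_toFinset]
    rcases ha with rfl | ha
    · exact hx
    · rw [mem_Icc] at ha
      have := hw.2.1 a ha.1 ha.2
      exact List.count_pos_iff.1 (by omega)
  rw [sum_insert h1, List.sum_toFinset_count_eq_length, hw.1,
    sum_congr rfl (fun a ha => hw.2.1 a (mem_Icc.1 ha).1 (mem_Icc.1 ha).2), sum_const,
    Nat.card_Icc, smul_eq_mul] at h2
  have h3 : 0 < w.count x := List.count_pos_iff.2 hx
  omega

theorem h_congr (u v : List ℕ) (i : ℕ) (huv : ∀ l < i, u.count l = v.count l) : h u i = h v i := by
  induction i with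
  | zero => rfl
  | succ i ih =>
    rw [h, h, ih (fun l hl => huv l (by omega)), huv i (by omega)]

theorem h_insert (m : ℕ) (u v : List ℕ) (k : ℕ) (h1 : ∀ x ∈ u, x ≤ m) (h2 : ∀ x ∈ v, x ≤ m) :
    h (u ++ List.replicate k (m + 1) ++ v) (m + 2) = h (u ++ v) (m + 1) + k - 1 := by
  rw [h]
  have e1 : h (u ++ List.replicate k (m + 1) ++ v) (m + 1) = h (u ++ v) (m + 1) := by
    apply h_congr
    intro l hl
    rw [List.count_append, List.count_append, List.count_append, List.count_replicate,
      if_neg (by simp only [beq_iff_eq]; omega), add_zero]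
  have e2 : (u ++ List.replicate k (m + 1) ++ v).count (m + 1) = k := by
    rw [List.count_append, List.count_append, List.count_replicate_self,
      List.count_eq_zero_of_not_mem (fun hh => by have := h1 _ hh; omega),
      List.count_eq_zero_of_not_mem (fun hh => by have := h2 _ hh; omega)]
    omega
  rw [e1, e2]

theorem s_HT : S_HT := by
  refine ⟨rfl, ?_⟩
  intro m g w hw hg
  have hl := hw.1
  have hlt : ∀ j, ∀ x ∈ w.take j, x ≤ m := fun j x hx => (letters hw (List.mem_of_mem_take hx)).2
  have hld : ∀ j, ∀ x ∈ (w.drop g).take j, x ≤ m :=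
    fun j x hx => (letters hw (List.mem_of_mem_drop (List.mem_of_mem_take hx))).2
  have hlen : (w.take g).length = g := by
    rw [List.length_take]
    omega
  -- the prefixes of the new word
  have p1 : ∀ j, j ≤ g → h ((ins g (m + 1) w).take j) (m + 2) = h (w.take j) (m + 1) - 1 := by
    intro j hj
    have e : (ins g (m + 1) w).take j = w.take j ++ List.replicate 0 (m + 1) ++ [] := by
      unfold ins
      rw [List.take_append_of_le_length (by omega), List.take_take, min_eq_left hj]
      simp
    rw [e, h_insert m _ _ 0 (hlt j) (by simp)]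
    simp
  have p2 : h ((ins g (m + 1) w).take (g + 1)) (m + 2) = h (w.take g) (m + 1) := by
    have e : (ins g (m + 1) w).take (g + 1) = w.take g ++ List.replicate 1 (m + 1) ++ [] := by
      unfold ins
      rw [List.take_append, hlen, List.take_of_length_le (by omega), Nat.add_sub_cancel_left]
      simp
    rw [e, h_insert m _ _ 1 (hlt g) (by simp)]
    simp
  have p3 : ∀ k, h ((ins g (m + 1) w).take (g + 2 + k)) (m + 2) =
      h (w.take (g + k)) (m + 1) + 1 := by
    intro k
    have e : (ins g (m + 1) w).take (g + 2 + k) =
        w.take g ++ List.replicate 2 (m + 1) ++ (w.drop g).take k := by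
      unfold ins
      rw [List.take_append, hlen, List.take_of_length_le (by omega),
        (by omega : g + 2 + k - g = k + 1 + 1), List.take_succ_cons, List.take_succ_cons]
      simp [List.replicate]
    have e2 : w.take g ++ (w.drop g).take k = w.take (g + k) := by
      rw [List.take_add]
    rw [e, h_insert m _ _ 2 (hlt g) (hld k), e2]
    omega
  obtain ⟨H, hH⟩ : ∃ H : ℕ → ℕ, ∀ j, H j = h (w.take j) (m + 1) := ⟨_, fun j => rfl⟩
  have hHt : Ht m w = (List.range (2 * m + 1)).map H := by
    unfold Ht
    exact List.map_congr_left fun j _ => (hH j).symm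
  have hgd : (Ht m w).getD g 0 = H g := by
    rw [hHt, List.getD_eq_getElem _ _ (by simp; omega)]
    simp
  have hnew : Ht (m + 1) (ins g (m + 1) w) = (List.range (2 * m + 3)).map
      (fun j => if j ≤ g then H j - 1 else if j = g + 1 then H g else H (j - 2) + 1) := by
    unfold Ht
    rw [(by ring : 2 * (m + 1) + 1 = 2 * m + 3)]
    refine List.map_congr_left fun j _ => ?_
    split_ifs with c1 c2
    · rw [p1 j c1, hH]
    · rw [c2, p2, hH]
    · obtain ⟨k, rfl⟩ : ∃ k, j = g + 2 + k := ⟨j - (g + 2), by omega⟩
      rw [p3 k, hH, (by omega : g + 2 + k - 2 = g + k)]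
  rw [hnew]
  unfold step
  rw [hgd, hHt]
  apply List.ext_getElem
  · simp
    omega
  · intro j h1 h2
    rw [List.length_map, List.length_range] at h1
    rw [List.getElem_map, List.getElem_range]
    have hm : min g (2 * m + 1) = g := by omega
    have hA : (((List.range (2 * m + 1)).map H).take g).length = g := by simp; omega
    rcases (by omega : j < g ∨ j = g ∨ j = g + 1 ∨ j = g + 2 ∨ g + 3 ≤ j) with c | c | c | c | c
    · rw [if_pos (by omega), List.getElem_append_left (by simp; omega),
        List.getElem_append_left (by simp; omega)]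
      simp
    · subst c
      rw [if_pos le_rfl, List.getElem_append_left (by simp; omega),
        List.getElem_append_right (by simp)]
      simp [hm]
    · subst c
      rw [if_neg (by omega), if_pos rfl, List.getElem_append_left (by simp; omega),
        List.getElem_append_right (by simp)]
      simp [hm]
    · subst c
      rw [if_neg (by omega), if_neg (by omega), List.getElem_append_left (by simp; omega),
        List.getElem_append_right (by simp)]
      simp [hm]
    · rw [if_neg (by omega), if_neg (by omega), List.getElem_append_right (by simp; omega)]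
      simp only [List.getElem_map, List.getElem_drop, List.getElem_range]
      congr 2
      simp
      omega

end Pool.Agent.L7h23.ST
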