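import Pool.Agent.L7h23.ST.Stm

/-!
# Project ST, part RED (helper23): weakly increasing lists
-/

set_option autoImplicit false

namespace Pool.Agent.L7h23.ST

open Finset

/-- the entries below `t` of a weakly increasing list come first -/
theorem lt_iff (t : ℕ) (L : List ℕ) (hL : L.Pairwise (· ≤ ·)) (g : ℕ) (hg : g < L.length) :
    L.getD g 0 < t ↔ g < L.countP (· < t) := by
  induction L generalizing g with
  | nil => simp at hg
  | cons a L ih =>
    rw [List.pairwise_cons] at hL
    by_cases ha : a < t
    · rw [List.countP_cons_of_pos (by simpa using ha)]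
      cases g with
      | zero => simp [ha]
      | succ g =>
        rw [List.getD_cons_succ, ih hL.2 g (by simpa using hg)]
        omega
    · rw [List.countP_cons_of_neg (by simpa using ha)]
      have h0 : L.countP (· < t) = 0 := by
        rw [List.countP_eq_zero]
        intro b hb
        have := hL.1 b hb
        simp only [decide_eq_true_eq]
        omega
      rw [h0]
      constructor
      · intro h
        exfalso
        cases g with
        | zero => exact ha (by simpa using h)
        | succ g =>
          rw [List.getD_cons_succ] at h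
          have h2 : g < L.length := by simpa using hg
          rw [List.getD_eq_getElem _ _ h2] at h
          have := hL.1 _ (List.getElem_mem h2)
          omega
      · intro h
        omega

theorem countP_one (L : List ℕ) : L.countP (· < 1) = L.count 0 := by
  rw [List.count]
  refine List.countP_congr fun a _ => ?_
  simp

theorem countP_two (L : List ℕ) : L.countP (· < 2) = L.count 0 + L.count 1 := by
  induction L with
  | nil => rfl
  | cons a L ih =>
    rw [List.countP_cons, ih, List.count_cons, List.count_cons]
    rcases (by omega : a = 0 ∨ a = 1 ∨ 2 ≤ a) with h | h | h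
    · subst h; simp; omega
    · subst h; simp; omega
    · simp only [decide_eq_true_eq, beq_iff_eq]
      rw [if_neg (by omega), if_neg (by omega), if_neg (by omega)]
      omega

theorem split_at (L : List ℕ) (g : ℕ) (hg : g < L.length) :
    ∃ (A : List ℕ) (a : ℕ) (R : List ℕ), L = A ++ a :: R ∧ A.length = g ∧ L.getD g 0 = a ∧
      step L g = A.map (fun x => x - 1) ++ [a - 1, a, a + 1] ++ R.map (fun x => x + 1) := by
  refine ⟨L.take g, L.getD g 0, L.drop (g + 1), ?_, ?_, rfl, rfl⟩
  · rw [List.getD_eq_getElem _ _ hg, List.getElem_cons_drop, List.take_append_drop]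
  · rw [List.length_take]
    omega

theorem step_sorted (L : List ℕ) (hL : L.Pairwise (· ≤ ·)) (g : ℕ) (hg : g < L.length) :
    (step L g).Pairwise (· ≤ ·) ∧ (step L g).length = L.length + 2 := by
  obtain ⟨A, a, R, h1, h2, h3, h4⟩ := split_at L g hg
  rw [h4]
  rw [h1] at hL
  rw [List.pairwise_append, List.pairwise_cons] at hL
  obtain ⟨p1, ⟨p2, p3⟩, p4⟩ := hL
  have p5 : ∀ x ∈ A, x ≤ a := fun x hx => p4 x hx a (by simp)
  constructor
  · rw [List.pairwise_append, List.pairwise_append]
    refine ⟨⟨?_, ?_, ?_⟩, ?_, ?_⟩
    · rw [List.pairwise_map]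
      exact p1.imp fun h => by omega
    · simp only [List.pairwise_cons, List.mem_cons, List.not_mem_nil, or_false, forall_eq_or_imp,
        forall_eq, List.Pairwise.nil, and_true, false_imp_iff, implies_true]
      omega
    · intro x hx y hy
      rw [List.mem_map] at hx
      obtain ⟨x', hx', rfl⟩ := hx
      have := p5 x' hx'
      simp only [List.mem_cons, List.not_mem_nil, or_false] at hy
      omega
    · rw [List.pairwise_map]
      exact p3.imp fun h => by omega
    · intro x hx y hy
      rw [List.mem_map] at hy
      obtain ⟨y', hy', rfl⟩ := hy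
      have := p2 y' hy'
      rw [List.mem_append, List.mem_map] at hx
      rcases hx with ⟨x', hx', rfl⟩ | hx
      · have := p5 x' hx'
        omega
      · simp only [List.mem_cons, List.not_mem_nil, or_false] at hx
        omega
  · rw [h1]
    simp
    omega

theorem countP_map_pred (t : ℕ) (ht : 1 ≤ t) (A : List ℕ) :
    (A.map (fun x => x - 1)).countP (· < t) = A.countP (· < t + 1) := by
  rw [List.countP_map]
  refine List.countP_congr fun a _ => ?_
  simp only [Function.comp_apply, decide_eq_true_eq]
  omega

theorem countP_map_succ (t : ℕ) (A : List ℕ) :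
    (A.map (fun x => x + 1)).countP (· < t + 1) = A.countP (· < t) := by
  rw [List.countP_map]
  refine List.countP_congr fun a _ => ?_
  simp only [Function.comp_apply, decide_eq_true_eq]
  omega

theorem countP_all (t : ℕ) (A : List ℕ) (h : ∀ x ∈ A, x < t) : A.countP (· < t) = A.length := by
  rw [List.countP_eq_length]
  intro a ha
  simpa using h a ha

theorem countP_none (t : ℕ) (A : List ℕ) (h : ∀ x ∈ A, t ≤ x) : A.countP (· < t) = 0 := by
  rw [List.countP_eq_zero]
  intro a ha
  have := h a ha
  simp only [decide_eq_true_eq]
  omega

theorem step_zero (L : List ℕ) (hL : L.Pairwise (· ≤ ·)) (g : ℕ) (hg : g < L.length)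
    (h0 : L.getD g 0 = 0) : (step L g).count 0 = g + 2 ∧
      (step L g).count 0 + (step L g).count 1 = L.count 0 + 2 := by
  obtain ⟨A, a, R, h1, h2, h3, h4⟩ := split_at L g hg
  rw [h0] at h3
  subst h3
  rw [← countP_two, ← countP_one, ← countP_one L, h4]
  rw [h1] at hL
  rw [List.pairwise_append, List.pairwise_cons] at hL
  obtain ⟨p1, ⟨p2, p3⟩, p4⟩ := hL
  have p5 : ∀ x ∈ A, x = 0 := fun x hx => Nat.le_zero.1 (p4 x hx 0 (by simp))
  rw [List.countP_append, List.countP_append, List.countP_append, List.countP_append,
    countP_map_pred 1 le_rfl, countP_map_pred 2 (by norm_num), countP_map_succ 0,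
    countP_map_succ 1, countP_all (1 + 1) A (fun x hx => by rw [p5 x hx]; norm_num),
    countP_all (2 + 1) A (fun x hx => by rw [p5 x hx]; norm_num), countP_none 0 R (by simp), h1,
    List.countP_append, List.countP_cons, countP_all 1 A (fun x hx => by rw [p5 x hx]; norm_num)]
  simp
  omega

theorem step_pos (L : List ℕ) (hL : L.Pairwise (· ≤ ·)) (g : ℕ) (hg : g < L.length)
    (h0 : L.getD g 0 ≠ 0) : (step L g).count 0 = min (g + 1) (L.count 0 + L.count 1) := by
  have hlt := lt_iff 2 L hL g hg
  obtain ⟨A, a, R, h1, h2, h3, h4⟩ := split_at L g hg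
  rw [h3] at h0 hlt
  rw [← countP_two, ← countP_one, h4]
  rw [h1] at hL
  rw [List.pairwise_append, List.pairwise_cons] at hL
  obtain ⟨p1, ⟨p2, p3⟩, p4⟩ := hL
  have p5 : ∀ x ∈ A, x ≤ a := fun x hx => p4 x hx a (by simp)
  rw [List.countP_append, List.countP_append, countP_map_pred 1 le_rfl, countP_map_succ 0,
    countP_none 0 R (by simp)]
  by_cases ha : a = 1
  · subst ha
    rw [countP_all (1 + 1) A (fun x hx => by have := p5 x hx; omega)]
    have := hlt.1 (by norm_num)
    have h8 : [1 - 1, 1, 1 + 1].countP (· < 1) = 1 := rfl
    rw [h8]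
    omega
  · have h5 : ¬ g < L.countP (· < 2) := fun h => by
      have := hlt.2 h
      omega
    have h6 : L.countP (· < 2) = A.countP (· < 2) := by
      rw [h1, List.countP_append, List.countP_cons, countP_none 2 R (fun x hx => by
        have := p2 x hx
        omega), if_neg (by simp only [decide_eq_true_eq]; omega)]
      omega
    have h7 : [a - 1, a, a + 1].countP (· < 1) = 0 := by
      rw [countP_none 1]
      intro x hx
      simp only [List.mem_cons, List.not_mem_nil, or_false] at hx
      omega
    rw [h7, show (1 + 1) = 2 from rfl, ← h6]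
    omega

theorem s_RED : S_RED := by
  intro s
  induction s with
  | zero =>
    intro L _
    exact ⟨rfl, rfl⟩
  | succ s ih =>
    intro L hL
    have hx : L.count 0 ≤ L.length := List.count_le_length
    have hzero : ∀ g, g < L.length → (L.getD g 0 = 0 ↔ g < L.count 0) := by
      intro g hg
      have h := lt_iff 1 L hL g hg
      rw [countP_one] at h
      rw [← h]
      omega
    constructor
    · rw [cnt, B, ← sum_subset (range_subset_range.2 hx)]
      · refine sum_congr rfl fun g hg => ?_
        rw [mem_range] at hg
        have hg' : g < L.length := by omega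
        have h0 := (hzero g hg').2 hg
        rw [if_pos h0, (ih _ (step_sorted L hL g hg').1).1, (step_zero L hL g hg' h0).1]
      · intro g hg hg'
        rw [mem_range] at hg hg'
        rw [if_neg (fun h => hg' ((hzero g hg).1 h)), if_pos rfl]
    · rw [cnt, D, range_eq_Ico, ← sum_Ico_consecutive _ (Nat.zero_le _) hx, ← range_eq_Ico]
      congr 1
      · refine sum_congr rfl fun g hg => ?_
        rw [mem_range] at hg
        have hg' : g < L.length := by omega
        have h0 := (hzero g hg').2 hg
        rw [if_pos h0, (ih _ (step_sorted L hL g hg').1).2, (step_zero L hL g hg' h0).1,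
          ← (step_zero L hL g hg' h0).2, (step_zero L hL g hg' h0).1,
          (step_sorted L hL g hg').2]
      · refine sum_congr rfl fun g hg => ?_
        rw [mem_Ico] at hg
        have h0 : L.getD g 0 ≠ 0 := fun h => by
          have := (hzero g hg.2).1 h
          omega
        rw [if_neg h0, if_neg one_ne_zero, Nat.sub_self, (ih _ (step_sorted L hL g hg.2).1).1,
          step_pos L hL g hg.2 h0]

end Pool.Agent.L7h23.ST
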