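import Pool.Agent.L7h23.ST.Serb
import Pool.Agent.L7h23.ST.Red
import Pool.Agent.L7h23.ST.Ht
import Pool.Agent.L7h16.ST.Park
import Pool.Agent.L7h16.ST.Ins
import Pool.Agent.L7h16.ST.Gen
import Pool.Agent.L7h16.ST.Cnt

/-!
# Project ST (helper23, helper16): assembly
-/

set_option autoImplicit false

namespace Pool.Agent.L7h23.ST

theorem cnt_eq (n k : ℕ) (hk : k ≤ n) : aN n k = cnt n (n - k) [0] :=
  Pool.Agent.L7h16.ST.s_CNT (Pool.Agent.L7h16.ST.s_INS Pool.Agent.L7h16.ST.s_PARK)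
    Pool.Agent.L7h16.ST.s_GEN s_HT n k hk

theorem diagonal (n : ℕ) (hn : 2 ≤ n) :
    2 * aN n (n - 1) + (n + 1) * (2 * n).choose n = (n + 3) * 4 ^ (n - 1) := by
  rw [cnt_eq n (n - 1) (by omega), (by omega : n - (n - 1) = 1),
    (s_RED n [0] (by simp)).2]
  exact s_SERB s_SERA n hn

end Pool.Agent.L7h23.ST
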