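import Pool.Agent.L7h23.ST.Stm

/-!
# Project ST, part SERA (helper23): the generating function
-/

set_option autoImplicit false

namespace Pool.Agent.L7h23.ST

open PowerSeries Finset

theorem Cs_eq : Cs = 1 + X * Cs ^ 2 := by
  have h := congrArg (PowerSeries.map (Nat.castRingHom ℚ)) catalanSeries_sq_mul_X_add_one
  rw [map_add, map_mul, map_pow, PowerSeries.map_X, map_one] at h
  unfold Cs
  linear_combination -h

theorem Cs_q : Cs * (1 - q) = 1 := by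
  unfold q
  linear_combination Cs_eq

theorem X_q : (X : PowerSeries ℚ) = q * (1 - q) := by
  have h : (X : PowerSeries ℚ) = X * (Cs * (1 - q)) := by rw [Cs_q, mul_one]
  rw [h]
  unfold q
  ring

theorem Cs_pow (k : ℕ) : Cs ^ k = 1 + X * ∑ g ∈ range k, Cs ^ (g + 2) := by
  induction k with
  | zero => simp
  | succ k ih =>
    rw [sum_range_succ, mul_add, ← add_assoc, ← ih]
    have h := Cs_eq
    have h1 : Cs ^ (k + 1) = Cs ^ k * (1 + X * Cs ^ 2) := by rw [← h, pow_succ]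
    rw [h1]
    ring

theorem coeff_Cs (s k : ℕ) : coeff s (Cs ^ k) = (B s k : ℚ) := by
  induction s generalizing k with
  | zero =>
    rw [Cs_pow, map_add, coeff_zero_X_mul, coeff_zero_one, add_zero, B, Nat.cast_one]
  | succ s ih =>
    rw [Cs_pow, map_add, coeff_succ_X_mul, map_sum, B, Nat.cast_sum, coeff_one,
      if_neg (by omega), zero_add]
    exact sum_congr rfl fun g _ => ih _

/-- the first step -/
noncomputable def U (x y N : ℕ) : PowerSeries ℚ := X * ∑ g ∈ Ico x N, Cs ^ (min (g + 1) y)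

/-- the series of the numbers `D s x y N` -/
noncomputable def Ds (x y N : ℕ) : PowerSeries ℚ := PowerSeries.mk fun s => (D s x y N : ℚ)

theorem Ds_rec (x y N : ℕ) :
    Ds x y N = X * ∑ g ∈ range x, Ds (g + 2) (x + 2) (N + 2) + U x y N := by
  ext s
  cases s with
  | zero =>
    rw [Ds, coeff_mk, map_add, U, coeff_zero_X_mul, coeff_zero_X_mul, D]
    simp
  | succ s =>
    rw [Ds, coeff_mk, map_add, U, coeff_succ_X_mul, coeff_succ_X_mul, map_sum, map_sum, D,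
      Nat.cast_add, Nat.cast_sum, Nat.cast_sum]
    congr 1
    · refine sum_congr rfl fun g _ => ?_
      rw [Ds, coeff_mk]
    · refine sum_congr rfl fun g _ => ?_
      rw [coeff_Cs]

theorem six_g4 (x N : ℕ) : 6 * g4 (x : ℚ) (N : ℚ) =
    (x : PowerSeries ℚ) ^ 3 * (-2 * q ^ 3 + 14 * q ^ 4 - 32 * q ^ 5 + 24 * q ^ 6) +
    (x : PowerSeries ℚ) ^ 2 * N * (3 * q ^ 3 - 18 * q ^ 4 + 36 * q ^ 5 - 24 * q ^ 6) +
    (x : PowerSeries ℚ) ^ 2 *
      (-3 * q ^ 2 + 27 * q ^ 3 - 78 * q ^ 4 + 96 * q ^ 5 - 48 * q ^ 6) +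
    (x : PowerSeries ℚ) * N * (6 * q ^ 2 - 39 * q ^ 3 + 96 * q ^ 4 - 108 * q ^ 5 + 48 * q ^ 6) +
    (x : PowerSeries ℚ) * (3 * q ^ 2 - 7 * q ^ 3 + 10 * q ^ 4 - 4 * q ^ 5) := by
  have key : ∀ (r : ℚ) (n : ℤ), 6 * r = n → (6 : PowerSeries ℚ) * C r = n := by
    intro r n h
    have h6 : (6 : PowerSeries ℚ) = C 6 := (map_ofNat C 6).symm
    rw [h6, ← map_mul, h]
    exact map_intCast C n
  have e1 := key (-1 / 3) (-2) (by norm_num)
  have e2 := key (7 / 3) 14 (by norm_num)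
  have e3 := key (16 / 3) 32 (by norm_num)
  have e4 := key 4 24 (by norm_num)
  have e5 := key (1 / 2) 3 (by norm_num)
  have e6 := key 3 18 (by norm_num)
  have e7 := key 6 36 (by norm_num)
  have e8 := key (-1 / 2) (-3) (by norm_num)
  have e9 := key (9 / 2) 27 (by norm_num)
  have e10 := key 13 78 (by norm_num)
  have e11 := key 16 96 (by norm_num)
  have e12 := key 8 48 (by norm_num)
  have e13 := key (13 / 2) 39 (by norm_num)
  have e14 := key 18 108 (by norm_num)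
  have e15 := key (7 / 6) 7 (by norm_num)
  have e16 := key (5 / 3) 10 (by norm_num)
  have e17 := key (2 / 3) 4 (by norm_num)
  push_cast at e1 e2 e3 e4 e5 e6 e7 e8 e9 e10 e11 e12 e13 e14 e15 e16 e17
  unfold g4
  simp only [map_mul, map_pow, map_natCast]
  linear_combination ((x : PowerSeries ℚ) ^ 3 * q ^ 3) * e1 + ((x : PowerSeries ℚ) ^ 3 * q ^ 4) * e2
    - ((x : PowerSeries ℚ) ^ 3 * q ^ 5) * e3 + ((x : PowerSeries ℚ) ^ 3 * q ^ 6) * e4
    + ((x : PowerSeries ℚ) ^ 2 * N * q ^ 3) * e5 - ((x : PowerSeries ℚ) ^ 2 * N * q ^ 4) * e6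
    + ((x : PowerSeries ℚ) ^ 2 * N * q ^ 5) * e7 - ((x : PowerSeries ℚ) ^ 2 * N * q ^ 6) * e4
    + ((x : PowerSeries ℚ) ^ 2 * q ^ 2) * e8 + ((x : PowerSeries ℚ) ^ 2 * q ^ 3) * e9
    - ((x : PowerSeries ℚ) ^ 2 * q ^ 4) * e10 + ((x : PowerSeries ℚ) ^ 2 * q ^ 5) * e11
    - ((x : PowerSeries ℚ) ^ 2 * q ^ 6) * e12
    - ((x : PowerSeries ℚ) * N * q ^ 3) * e13 + ((x : PowerSeries ℚ) * N * q ^ 4) * e11
    - ((x : PowerSeries ℚ) * N * q ^ 5) * e14 + ((x : PowerSeries ℚ) * N * q ^ 6) * e12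
    + ((x : PowerSeries ℚ) * q ^ 2) * e5 - ((x : PowerSeries ℚ) * q ^ 3) * e15
    + ((x : PowerSeries ℚ) * q ^ 4) * e16 - ((x : PowerSeries ℚ) * q ^ 5) * e17

theorem six_ne : (6 : PowerSeries ℚ) ≠ 0 := by
  intro h
  have h1 := congrArg (coeff 0) h
  rw [show (6 : PowerSeries ℚ) = C 6 from (map_ofNat C 6).symm, coeff_zero_C, map_zero] at h1
  norm_num at h1

/-- the polynomial identity -/
theorem g4_rec (x N : ℕ) :
    g4 ((x + 1 : ℕ) : ℚ) (N : ℚ) - (1 - q) * g4 (x : ℚ) (N : ℚ) =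
      q * g4 ((x + 2 : ℕ) : ℚ) ((N + 2 : ℕ) : ℚ) +
        (1 - 2 * q) ^ 4 * ((N : PowerSeries ℚ) - (x : PowerSeries ℚ)) * (q ^ 2 + (x : PowerSeries ℚ) * q ^ 3) := by
  apply mul_left_cancel₀ six_ne
  have h1 := six_g4 (x + 1) N
  have h2 := six_g4 x N
  have h3 := six_g4 (x + 2) (N + 2)
  push_cast at h1 h2 h3 ⊢
  linear_combination h1 - (1 - q) * h2 - q * h3

theorem P_eq : (1 - C 4 * X : PowerSeries ℚ) ^ 2 = (1 - 2 * q) ^ 4 := by
  have h4 : (C 4 : PowerSeries ℚ) = 4 := map_ofNat C 4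
  rw [h4]
  have h := X_q
  linear_combination (-4 : PowerSeries ℚ) * (2 - 4 * X - 4 * q * (1 - q)) * h

/-- the solution -/
noncomputable def T (x y N : ℕ) : PowerSeries ℚ :=
  Cs ^ x * g4 (x : ℚ) (N : ℚ) + (1 - 2 * q) ^ 4 * U x y N

theorem U_diff (a x N : ℕ) (ha : a ≤ x + 1) (hx : x ≤ N) :
    U a (x + 3) (N + 2) - U a (x + 2) (N + 2) =
      X * (((N : PowerSeries ℚ) - (x : PowerSeries ℚ)) * (Cs ^ (x + 3) - Cs ^ (x + 2))) := by
  unfold U
  rw [← mul_sub, ← sum_sub_distrib, ← sum_Ico_consecutive _ (by omega : a ≤ x + 2)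
    (by omega : x + 2 ≤ N + 2)]
  congr 1
  have h1 : ∑ g ∈ Ico a (x + 2), (Cs ^ min (g + 1) (x + 3) - Cs ^ min (g + 1) (x + 2)) = 0 := by
    refine sum_eq_zero fun g hg => ?_
    rw [mem_Ico] at hg
    rw [min_eq_left (by omega), min_eq_left (by omega), sub_self]
  have h2 : ∑ g ∈ Ico (x + 2) (N + 2), (Cs ^ min (g + 1) (x + 3) - Cs ^ min (g + 1) (x + 2)) =
      ∑ g ∈ Ico (x + 2) (N + 2), (Cs ^ (x + 3) - Cs ^ (x + 2)) := by
    refine sum_congr rfl fun g hg => ?_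
    rw [mem_Ico] at hg
    rw [min_eq_right (by omega), min_eq_right (by omega)]
  rw [h1, h2, zero_add, sum_const, Nat.card_Ico, nsmul_eq_mul,
    (by omega : N + 2 - (x + 2) = N - x), Nat.cast_sub hx]

theorem U_first (x N : ℕ) (hx : x ≤ N) :
    U (x + 2) (x + 3) (N + 2) = X * (((N : PowerSeries ℚ) - (x : PowerSeries ℚ)) * Cs ^ (x + 3)) := by
  unfold U
  congr 1
  have h2 : ∑ g ∈ Ico (x + 2) (N + 2), Cs ^ min (g + 1) (x + 3) =
      ∑ g ∈ Ico (x + 2) (N + 2), Cs ^ (x + 3) := by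
    refine sum_congr rfl fun g hg => ?_
    rw [mem_Ico] at hg
    rw [min_eq_right (by omega)]
  rw [h2, sum_const, Nat.card_Ico, nsmul_eq_mul, (by omega : N + 2 - (x + 2) = N - x),
    Nat.cast_sub hx]

theorem main (N x : ℕ) (hx : x ≤ N) :
    Cs ^ x * g4 (x : ℚ) (N : ℚ) = X * ∑ g ∈ range x, T (g + 2) (x + 2) (N + 2) := by
  induction x with
  | zero =>
    have h := six_g4 0 N
    have h1 : g4 ((0 : ℕ) : ℚ) (N : ℚ) = 0 := by
      apply mul_left_cancel₀ six_ne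
      rw [h]
      push_cast
      ring
    rw [h1]
    simp
  | succ x ih =>
    have hx' : x ≤ N := by omega
    have h0 := ih hx'
    have hT : ∑ g ∈ range x, T (g + 2) (x + 1 + 2) (N + 2) =
        ∑ g ∈ range x, T (g + 2) (x + 2) (N + 2) + (x : PowerSeries ℚ) * ((1 - 2 * q) ^ 4 *
          (X * (((N : PowerSeries ℚ) - (x : PowerSeries ℚ)) * (Cs ^ (x + 3) - Cs ^ (x + 2))))) := by
      have h3 : ∀ g ∈ range x, T (g + 2) (x + 1 + 2) (N + 2) = T (g + 2) (x + 2) (N + 2) +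
          (1 - 2 * q) ^ 4 * (X * (((N : PowerSeries ℚ) - (x : PowerSeries ℚ)) * (Cs ^ (x + 3) - Cs ^ (x + 2)))) := by
        intro g hg
        rw [mem_range] at hg
        have h4 := U_diff (g + 2) x N (by omega) hx'
        unfold T
        linear_combination (1 - 2 * q) ^ 4 * h4
      rw [sum_congr rfl h3, sum_add_distrib, sum_const, card_range, nsmul_eq_mul]
    rw [sum_range_succ, hT, mul_add, mul_add, ← h0]
    have hF := U_first x N hx'
    unfold T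
    rw [show x + 1 + 2 = x + 3 from rfl, hF]
    have hr := g4_rec x N
    have hc := Cs_q
    have hX := X_q
    obtain ⟨Y, hY⟩ : ∃ Y, Y = Cs ^ x := ⟨_, rfl⟩
    obtain ⟨a1, ha1⟩ : ∃ a1, a1 = g4 ((x + 1 : ℕ) : ℚ) (N : ℚ) := ⟨_, rfl⟩
    obtain ⟨a0, ha0⟩ : ∃ a0, a0 = g4 (x : ℚ) (N : ℚ) := ⟨_, rfl⟩
    obtain ⟨a2, ha2⟩ : ∃ a2, a2 = g4 ((x + 2 : ℕ) : ℚ) ((N + 2 : ℕ) : ℚ) := ⟨_, rfl⟩
    rw [← ha1, ← ha0, ← ha2] at hr
    rw [← ha1, ← ha0, ← ha2]
    obtain ⟨c, hcc⟩ : ∃ c, c = Cs := ⟨_, rfl⟩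
    rw [← hcc] at hc hY ⊢
    rw [pow_succ c x, show x + 2 = x + 2 from rfl, pow_add c x 2, pow_add c x 3, ← hY]
    generalize hP : (1 - 2 * q) ^ 4 = P at hr ⊢
    generalize hM : (N : PowerSeries ℚ) - (x : PowerSeries ℚ) = M at hr ⊢
    have e1 : X * c = q := by rw [hX]; linear_combination q * hc
    have e2 : c - 1 = q * c := by linear_combination hc
    have e3 : a0 = c * ((1 - q) * a0) := by linear_combination (-a0) * hc
    -- everything is `c * Y` times the identity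
    have e4 : X * c ^ 2 = q * c := by linear_combination c * e1
    have e5 : X * (X * (c ^ 3 - c ^ 2)) = q ^ 3 * c := by
      have : c ^ 3 - c ^ 2 = c ^ 2 * (c - 1) := by ring
      rw [this, e2]
      linear_combination (q * c * (X * c + q)) * e1
    have e6 : X * (X * c ^ 3) = q ^ 2 * c := by linear_combination (c * (X * c + q)) * e1
    have e7 : Y * c * a1 = Y * a0 + Y * c * (q * a2) + Y * c * (P * M * (q ^ 2 + (x : PowerSeries ℚ) * q ^ 3)) := by
      linear_combination (Y * c) * hr + (-(Y)) * e3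
    rw [e7]
    linear_combination (-(Y * a2)) * e4 - (Y * P * M * (x : PowerSeries ℚ)) * e5 - (Y * P * M) * e6

theorem D_eq (s x y N : ℕ) (hxy : x ≤ y) (hy : y ≤ N) :
    coeff s ((1 - 2 * q) ^ 4 * Ds x y N - T x y N) = 0 := by
  have hrec : ∀ x y N : ℕ, x ≤ y → y ≤ N → (1 - 2 * q) ^ 4 * Ds x y N - T x y N =
      X * ∑ g ∈ range x, ((1 - 2 * q) ^ 4 * Ds (g + 2) (x + 2) (N + 2) -
        T (g + 2) (x + 2) (N + 2)) := by
    intro x y N h1 h2
    rw [sum_sub_distrib, ← mul_sum, mul_sub, ← main N x (by omega), Ds_rec x y N]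
    unfold T
    ring
  induction s generalizing x y N with
  | zero => rw [hrec x y N hxy hy, coeff_zero_X_mul]
  | succ s ih =>
    rw [hrec x y N hxy hy, coeff_succ_X_mul, map_sum]
    refine sum_eq_zero fun g hg => ?_
    rw [mem_range] at hg
    exact ih _ _ _ (by omega) (by omega)

theorem s_SERA : S_SERA := by
  unfold S_SERA
  have h1 : (1 - 2 * q) ^ 4 * Ds 1 1 1 - T 1 1 1 = 0 := by
    ext s
    rw [D_eq s 1 1 1 le_rfl le_rfl, map_zero]
  have h2 : U 1 1 1 = 0 := by simp [U]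
  have h3 : T 1 1 1 = q ^ 2 * (1 - 2 * q + 2 * q ^ 2) := by
    unfold T
    rw [h2, mul_zero, add_zero, pow_one]
    apply mul_left_cancel₀ six_ne
    have h := six_g4 1 1
    push_cast at h
    have hc := Cs_q
    have h5 : 6 * (Cs * g4 ((1 : ℕ) : ℚ) ((1 : ℕ) : ℚ)) =
        Cs * (6 * g4 ((1 : ℕ) : ℚ) ((1 : ℕ) : ℚ)) := by ring
    rw [h5]
    push_cast
    rw [h]
    linear_combination (6 * q ^ 2 * (1 - 2 * q + 2 * q ^ 2)) * hc
  have hC2 : (C 2 : PowerSeries ℚ) = 2 := map_ofNat C 2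
  rw [P_eq, hC2]
  have h4 := sub_eq_zero.1 h1
  rw [h3] at h4
  exact h4

end Pool.Agent.L7h23.ST
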