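import Pool.Agent.L7h23.ST.Sera

/-!
# Project ST, part SERB (helper23): the coefficients of the generating function
-/

set_option autoImplicit false

namespace Pool.Agent.L7h23.ST

open PowerSeries Finset

/-- the closed form -/
def ee (n : ℕ) : ℚ := (n + 3) / 8 * 4 ^ n - (n + 1) / 2 * (n.centralBinom : ℚ)

theorem ee_rec (n : ℕ) : ee (n + 2) = 8 * ee (n + 1) - 16 * ee n + catalan (n + 1) -
    2 * catalan n := by
  have h0 : (n.centralBinom : ℚ) = (n + 1) * catalan n := by
    have := succ_mul_catalan_eq_centralBinom n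
    rw [← this]
    push_cast
    ring
  have h1 : ((n + 1).centralBinom : ℚ) = (n + 2) * catalan (n + 1) := by
    have := succ_mul_catalan_eq_centralBinom (n + 1)
    rw [← this]
    push_cast
    ring
  have h2 : ((n : ℚ) + 1) * ((n + 1).centralBinom : ℚ) = 2 * (2 * n + 1) * n.centralBinom := by
    have := Nat.succ_mul_centralBinom_succ n
    exact_mod_cast this
  have h3 : ((n : ℚ) + 2) * ((n + 2).centralBinom : ℚ) =
      2 * (2 * n + 3) * (n + 1).centralBinom := by
    have h := Nat.succ_mul_centralBinom_succ (n + 1)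
    have h' : (((n + 1 : ℕ) : ℚ) + 1) * ((n + 1 + 1).centralBinom : ℚ) =
        2 * (2 * ((n + 1 : ℕ) : ℚ) + 1) * (n + 1).centralBinom := by exact_mod_cast h
    push_cast at h'
    linear_combination h'
  have n1 : ((n : ℚ) + 1) ≠ 0 := by positivity
  have n2 : ((n : ℚ) + 2) ≠ 0 := by positivity
  have h4 : ((n + 1).centralBinom : ℚ) = 2 * (2 * n + 1) * catalan n := by
    apply mul_left_cancel₀ n1
    rw [h2, h0]
    ring
  unfold ee
  push_cast
  apply mul_left_cancel₀ n2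
  rw [pow_succ, pow_succ]
  linear_combination (-((n : ℚ) + 3) / 2) * h3 + (4 * ((n : ℚ) + 2) ^ 2 - ((n : ℚ) + 3) * (2 * n + 3)) * h4 - (8 * ((n : ℚ) + 1) * (n + 2)) * h0 + h1 - h4

theorem D_rec (hA : S_SERA) (n : ℕ) : (D (n + 2) 1 1 1 : ℚ) = 8 * D (n + 1) 1 1 1 -
    16 * D n 1 1 1 + catalan (n + 1) - 2 * catalan n + if n = 0 then 2 else 0 := by
  unfold S_SERA at hA
  obtain ⟨M, hM⟩ : ∃ M : PowerSeries ℚ, M = PowerSeries.mk (fun s => (D s 1 1 1 : ℚ)) := ⟨_, rfl⟩
  rw [← hM] at hA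
  have hC4 : (C 4 : PowerSeries ℚ) = 4 := map_ofNat C 4
  have hC2 : (C 2 : PowerSeries ℚ) = 2 := map_ofNat C 2
  rw [hC4, hC2] at hA
  have hX := X_q
  have key : M = X * (C 8 * M) - X * (X * (C 16 * M)) - X + X * (X * C 2) + X * Cs -
      X * (X * (C 2 * Cs)) := by
    have hC8 : (C 8 : PowerSeries ℚ) = 8 := map_ofNat C 8
    have hC16 : (C 16 : PowerSeries ℚ) = 16 := map_ofNat C 16
    rw [hC8, hC16, hC2]
    have hq : X * Cs = q := rfl
    have h1 : M - X * (8 * M) + X * (X * (16 * M)) = q ^ 2 * (1 - 2 * q + 2 * q ^ 2) := by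
      rw [← hA]
      ring
    have h2 : q ^ 2 * (1 - 2 * q + 2 * q ^ 2) = -X + X * (X * 2) + q - X * (2 * q) := by
      linear_combination (1 - 2 * X - 2 * q * (1 - q) + 2 * q) * hX
    have h3 : X * (X * (2 * Cs)) = X * (2 * q) := by rw [← hq]; ring
    rw [h3, hq]
    linear_combination h1 + h2
  have h := congrArg (coeff (n + 2)) key
  rw [map_sub, map_add, map_add, map_sub, map_sub, coeff_succ_X_mul, coeff_succ_X_mul,
    coeff_succ_X_mul, coeff_succ_X_mul, coeff_succ_X_mul, coeff_succ_X_mul, coeff_succ_X_mul,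
    coeff_succ_X_mul, coeff_C_mul, coeff_C_mul, coeff_C_mul, coeff_C, hM, coeff_mk, coeff_mk,
    coeff_mk, coeff_X, if_neg (by omega)] at h
  have hcs : ∀ k, coeff k Cs = (catalan k : ℚ) := by
    intro k
    unfold Cs
    rw [coeff_map, catalanSeries_coeff]
    rfl
  rw [hcs, hcs] at h
  rw [h]
  split_ifs <;> ring

theorem D_closed (hA : S_SERA) (n : ℕ) : (D (n + 1) 1 1 1 : ℚ) = ee (n + 1) ∧
    (D (n + 2) 1 1 1 : ℚ) = ee (n + 2) := by
  induction n with
  | zero =>
    have h1 : D 1 1 1 1 = 0 := by simp [D]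
    have h0 : D 0 1 1 1 = 0 := rfl
    have h2 := D_rec hA 0
    rw [if_pos rfl, h0, show (0 + 1 : ℕ) = 1 from rfl, h1, catalan_one, catalan_zero] at h2
    refine ⟨?_, ?_⟩
    · rw [show (0 + 1 : ℕ) = 1 from rfl, h1]
      unfold ee
      have : Nat.centralBinom 1 = 2 := rfl
      rw [this]
      norm_num
    · rw [h2]
      unfold ee
      have : Nat.centralBinom 2 = 6 := rfl
      rw [this]
      norm_num
  | succ n ih =>
    refine ⟨ih.2, ?_⟩
    have h := D_rec hA (n + 1)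
    rw [if_neg (by omega), add_zero] at h
    rw [h, ih.1, ih.2]
    exact (ee_rec (n + 1)).symm

theorem s_SERB (hA : S_SERA) : S_SERB := by
  intro n hn
  obtain ⟨m, rfl⟩ : ∃ m, n = m + 2 := ⟨n - 2, by omega⟩
  have h := (D_closed hA m).2
  have h1 : (2 * D (m + 2) 1 1 1 + (m + 2 + 1) * (m + 2).centralBinom : ℚ) =
      (m + 2 + 3) * 4 ^ (m + 1) := by
    rw [h]
    unfold ee
    push_cast
    rw [pow_succ 4 (m + 1)]
    ring
  rw [Nat.centralBinom_eq_two_mul_choose] at h1
  rw [show m + 2 - 1 = m + 1 from rfl]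
  exact_mod_cast h1

end Pool.Agent.L7h23.ST
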