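import Pool.Agent.L7h23.ST.Defs

/-!
# Project ST (helper23), MP_d4a4cd_co: statements of the parts

THEOREM. For all `n ≥ 2`: `2 a(n, n-1) + (n+1) (2n choose n) = (n+3) 4^(n-1)`.

Insert the letters `1, 2, ..., n` one after the other (`(m+1)(m+1)` goes into one of the `2 m + 1`
gaps of the word). For a gap let `h` be the number of cars before the gap which overflow past the
spot `m`. The new pair has a lucky car if and only if `h = 0` at the chosen gap. The list of the
numbers `h` of all gaps is weakly increasing, starts with `[0]`, and changes by `step`: the numbers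
left of the chosen gap drop by one (not below `0`), the chosen number `a` is replaced by
`a - 1, a, a + 1`, the numbers to its right grow by one.
-/

set_option autoImplicit false

namespace Pool.Agent.L7h23.ST

/-- the number of the cars with preferences `u` which overflow past the spot `i - 1` -/
def h (u : List ℕ) : ℕ → ℕ
  | 0 => 0
  | i + 1 => h u i + u.count i - 1

/-- **PARK** (100 lines). With `occ u` the set of taken spots after the cars `u` (positive
preferences), for `i ≥ 1`: `i ∈ occ u ↔ 1 ≤ h u i + u.count i`. Induction on `u` from the right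
(`List.reverseRecOn`), the new car with preference `p` parks at `s = spot (occ u) p`, the spots
`p, ..., s - 1` are taken: `h (u ++ [p]) i = h u i + 1` for `p < i ≤ s`, and `= h u i` for `i ≤ p` and
for `i > s`. `luckyFrom ∅ (u ++ [p]) = luckyFrom ∅ u + (if spot (occ u) p = p ...)`; the spot is `p`
iff `p ∉ occ u` (the set of free spots `≥ p` is not empty, `Nat.sInf_mem`). -/
def S_PARK : Prop := ∀ (u : List ℕ) (p : ℕ), (∀ x ∈ u, 1 ≤ x) → 1 ≤ p →
  lucky (u ++ [p]) = lucky u + if h u p + u.count p = 0 then 1 else 0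

/-- insert `x x` into the gap `g` of the word `w` -/
def ins (g x : ℕ) (w : List ℕ) : List ℕ := w.take g ++ x :: x :: w.drop g

/-- **INS** (80 lines) from PARK. `h u i` depends only on the numbers `u.count l`, `l < i`. Add the
letters one by one (PARK): the first new car `m + 1` is lucky iff `h (w.take g) (m+1) = 0`, the
second one is not, and nothing changes for the later cars (letters `≤ m`). -/
def S_INS : Prop := ∀ (m g : ℕ) (w : List ℕ), IsStirling m w → g ≤ 2 * m →
  lucky (ins g (m + 1) w) = lucky w + if h (w.take g) (m + 1) = 0 then 1 else 0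

/-- **GEN** (150 lines). Every Stirling permutation of order `m + 1` arises from exactly one of order
`m` by inserting `(m+1)(m+1)` into exactly one gap (nothing can be between the two letters
`m + 1`). -/
def S_GEN : Prop := (∀ w : List ℕ, IsStirling 0 w ↔ w = []) ∧
  (∀ (m : ℕ) (w' : List ℕ), IsStirling (m + 1) w' ↔
    ∃ (w : List ℕ) (g : ℕ), IsStirling m w ∧ g ≤ 2 * m ∧ w' = ins g (m + 1) w) ∧
  ∀ (m : ℕ) (w₁ w₂ : List ℕ) (g₁ g₂ : ℕ), IsStirling m w₁ → IsStirling m w₂ → g₁ ≤ 2 * m →
    g₂ ≤ 2 * m → ins g₁ (m + 1) w₁ = ins g₂ (m + 1) w₂ → w₁ = w₂ ∧ g₁ = g₂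

/-- the numbers `h` of the gaps -/
def Ht (m : ℕ) (w : List ℕ) : List ℕ := (List.range (2 * m + 1)).map fun g => h (w.take g) (m + 1)

/-- the change of the numbers of the gaps when the gap `g` is chosen -/
def step (L : List ℕ) (g : ℕ) : List ℕ :=
  (L.take g).map (fun x => x - 1) ++
    [L.getD g 0 - 1, L.getD g 0, L.getD g 0 + 1] ++ (L.drop (g + 1)).map (fun x => x + 1)

/-- **HT** (80 lines). `h` of a prefix of the new word at `m + 2` is `h (...) (m+1) + count (m+1) - 1`, the
count is `0`, `1`, `2` left of, inside, right of the new pair. -/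
def S_HT : Prop := Ht 0 [] = [0] ∧ ∀ (m g : ℕ) (w : List ℕ), IsStirling m w → g ≤ 2 * m →
  Ht (m + 1) (ins g (m + 1) w) = step (Ht m w) g

open Finset in
/-- the number of sequences of `s` choices with exactly `u` choices of a positive number, starting
from the list `L` -/
def cnt : ℕ → ℕ → List ℕ → ℕ
  | 0, u, _ => if u = 0 then 1 else 0
  | s + 1, u, L => ∑ g ∈ range L.length,
      if L.getD g 0 = 0 then cnt s u (step L g) else if u = 0 then 0 else cnt s (u - 1) (step L g)

/-- **CNT** (120 lines) from INS, GEN, HT. By induction on `s`: for `m + s = n` the number of `w'` of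
order `n` with `lucky w' + u = n` is the sum of `cnt s (u - (m - lucky w)) (Ht m w)` over the `w` of
order `m` with `m - lucky w ≤ u` (`lucky w ≤ m`). -/
def S_CNT : Prop := ∀ n k : ℕ, k ≤ n → aN n k = cnt n (n - k) [0]

open Finset in
/-- the number of sequences of `s` choices of the number `0` -/
def B : ℕ → ℕ → ℕ
  | 0, _ => 1
  | s + 1, k => ∑ g ∈ range k, B s (g + 2)

open Finset in
/-- the number of sequences of `s` choices with exactly one positive choice: `x` gaps have the
number `0`, `y` gaps the number `0` or `1`, `N` is the number of gaps -/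
def D : ℕ → ℕ → ℕ → ℕ → ℕ
  | 0, _, _, _ => 0
  | s + 1, x, y, N => (∑ g ∈ range x, D s (g + 2) (x + 2) (N + 2)) +
      ∑ g ∈ Ico x N, B s (min (g + 1) y)

/-- **RED** (120 lines). For a weakly increasing `L`, with `x, y` the numbers of the entries `= 0`,
`≤ 1`: `L.getD g 0 = 0 ↔ g < x`, `≤ 1 ↔ g < y` (`g < L.length`). `step L g` is weakly increasing, of
length `N + 2` (`g < N`). If `g < x`: its numbers `x, y` are `g + 2`, `x + 2`; if `x ≤ g < N`: its
number `x` is `min (g + 1) y`. -/
def S_RED : Prop := ∀ (s : ℕ) (L : List ℕ), L.Pairwise (· ≤ ·) →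
  cnt s 0 L = B s (L.count 0) ∧ cnt s 1 L = D s (L.count 0) (L.count 0 + L.count 1) L.length

section series
open PowerSeries

/-- the Catalan series over the rationals -/
noncomputable def Cs : PowerSeries ℚ := PowerSeries.map (Nat.castRingHom ℚ) catalanSeries

/-- `q = X C` -/
noncomputable def q : PowerSeries ℚ := X * Cs

/-- the polynomial `(1 - 4 X)^2 G / C^x`, `G` the series of the numbers `D s x y N` without the first
step -/
noncomputable def g4 (x N : ℚ) : PowerSeries ℚ :=
  C (x ^ 3) * (C (-1 / 3) * q ^ 3 + C (7 / 3) * q ^ 4 - C (16 / 3) * q ^ 5 + C 4 * q ^ 6) +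
  C (x ^ 2 * N) * (C (1 / 2) * q ^ 3 - C 3 * q ^ 4 + C 6 * q ^ 5 - C 4 * q ^ 6) +
  C (x ^ 2) * (C (-1 / 2) * q ^ 2 + C (9 / 2) * q ^ 3 - C 13 * q ^ 4 + C 16 * q ^ 5 - C 8 * q ^ 6) +
  C (x * N) * (q ^ 2 - C (13 / 2) * q ^ 3 + C 16 * q ^ 4 - C 18 * q ^ 5 + C 8 * q ^ 6) +
  C x * (C (1 / 2) * q ^ 2 - C (7 / 6) * q ^ 3 + C (5 / 3) * q ^ 4 - C (2 / 3) * q ^ 5)

/-- **SERA** (150 lines). In `ℚ[[X]]` write `C = Cs`, `C = 1 + X C^2` (`catalanSeries_sq_mul_X_add_one`),
`q = X C`, so `X = q (1 - q)`, `C (1 - q) = 1`, `1 - 4 X = (1 - 2 q)^2`, `C - 1 = q C`.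
(a) `∑ B s k X^s = C^k` (induction on `s` and `k`: both satisfy `f k = 1 + X ∑_(g<k) f (g + 2)`,
coefficientwise the recursion determines `B`; `C^(k+1) - C^k = C^k q C = X C^(k+2)`).
(b) `U x y N = X ∑_(g ∈ Ico x N) C^(min (g+1) y)`. The recursion of `D` says for `F x y N = ∑ D s x y N X^s`:
`F x y N = X ∑_(g<x) F (g+2) (x+2) (N+2) + U x y N`, and this determines `F` (coefficientwise,
induction on `s`). So it suffices to check that `F = C^x g + U` with `(1-4X)^2 g = g4` solves it for
`x ≤ y ≤ N` (multiply everything by `(1 - 4 X)^2`), that is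
`C^x g4(x,N) = X ∑_(g<x) (C^(g+2) g4(g+2,N+2) + (1-4X)^2 U (g+2) (x+2) (N+2))`. Induction on `x`
(`x ≤ N`): `g4(0,N) = 0`, and the difference of the equations for `x + 1` and `x` is
`C^(x+1) g4(x+1,N) - C^x g4(x,N) = X C^(x+2) g4(x+2,N+2) + (1-4X)^2 X^2 (N-x) (C^(x+3) + x X C^(x+4))`
(as `U a (y+1) N - U a y N = X (N - y) (C^(y+1) - C^y) = X^2 (N - y) C^(y+2)` for `a ≤ y + 1 ≤ N`, and
`U (x+2) (x+3) (N+2) = X (N-x) C^(x+3)`); times `1 - q` and divided by `C^x` this is the polynomial
identity `g4(x+1,N) - (1-q) g4(x,N) = q g4(x+2,N+2) + (1-2q)^4 (N-x) (q^2 + x q^3)` (ring).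
(c) `U 1 1 1 = 0`, `g4(1,1) = q^2 (1 - q) (1 - 2 q + 2 q^2)`. -/
def S_SERA : Prop := (1 - C 4 * X) ^ 2 * PowerSeries.mk (fun s => (D s 1 1 1 : ℚ)) =
  q ^ 2 * (1 - C 2 * q + C 2 * q ^ 2)

end series

/-- **SERB** (100 lines) from SERA. In `ℚ[[X]]`, `1 - 2 q = θ`, `q^2 (1 - 2q + 2q^2)` is
`3/8 - X - (1 - 2 X) (1 - 2 q) / 2 + (1 - 4 X)^2 / 8` (ring, with `X = q (1 - q)`). So with
`e n = (n+3)/8 4^n - (n+1)/2 (2n choose n)`, `e' = e + 1/8` at `n = 0`, it is enough that
`(1 - 4 X)^2 ∑ e' n X^n` is the same series (`(1-4X)^2` is not a zero divisor): coefficients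
`e n - 8 e (n-1) + 16 e (n-2)`; the coefficient of `X^(n+1)` in `q` is `catalan n`, and
`(2n choose n) = (n+1) catalan n` (`succ_mul_catalan_eq_centralBinom`),
`(n+1) centralBinom (n+1) = 2 (2n+1) centralBinom n` (`Nat.succ_mul_centralBinom_succ`). Or: the
linear recursion `e n = 8 e (n-1) - 16 e (n-2) + ...` and strong induction. -/
def S_SERB : Prop := ∀ n : ℕ, 2 ≤ n →
  2 * D n 1 1 1 + (n + 1) * (2 * n).choose n = (n + 3) * 4 ^ (n - 1)

end Pool.Agent.L7h23.ST
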